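import Pool.Agent.J4H54.LC.AllTwo

/-!
# Almost linearly long cycles in the Cayley graphs of all finite groups

Let `A` be a symmetric generating set of a finite group `G` with `|G| ≥ 3`. A closed sequence of
length `m` for `A` consists of `a_1, …, a_m ∈ A`, with product `1`, whose `m` initial products
`a_1 ⋯ a_k` are pairwise distinct (for `m ≥ 3`, a cycle of length `m` of the Cayley graph).
With an absolute constant `K`, for every finite `G`, every `A` and every solvable normal subgroup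
`R` of `G`, there is one of length `m ≥ 3` with
`|G| ≤ K * (1 + log |R|) ^ 1465 * exp (600 * √(log |G ⧸ R|)) * m`.
In particular, for every `ε > 0`, all but finitely many orders `|G|` admit `m ≥ |G| ^ (1 - ε)`,
whatever `G` and `A` are.
-/

namespace Pool.Agent.Results.MP_688fd0_co.AllFiniteGroups

universe u

/-- `ClosedSeq A l`: the entries `a_1, …, a_m` of the list `l` lie in `A`, the products
`a_1 ⋯ a_k` for `1 ≤ k ≤ m` are pairwise distinct, and `a_1 ⋯ a_m = 1`. -/
structure ClosedSeq {G : Type u} [Group G] (A : Set G) (l : List G) : Prop where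
  mem : ∀ a ∈ l, a ∈ A
  distinct : ∀ j k : ℕ, 1 ≤ j → j < k → k ≤ l.length → (l.take j).prod ≠ (l.take k).prod
  closed : l.prod = 1

/-- **Almost linearly long cycles in the Cayley graphs of all finite groups.** -/
theorem result :
    (∃ K : ℝ, ∀ (G : Type u) [Group G] [Finite G] (A : Set G),
      (∀ a ∈ A, a⁻¹ ∈ A) → Subgroup.closure A = ⊤ → 3 ≤ Nat.card G →
      ∀ (R : Subgroup G) [R.Normal] [Group.IsSolvable R],
      ∃ l : List G, ClosedSeq A l ∧ 3 ≤ l.length ∧
        (Nat.card G : ℝ) ≤ K * (1 + Real.log (Nat.card R)) ^ 1465 *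
          Real.exp (600 * √(Real.log (Nat.card (G ⧸ R)))) * l.length) ∧
    (∀ ε : ℝ, 0 < ε → ∃ N₀ : ℕ, ∀ (G : Type u) [Group G] [Finite G] (A : Set G),
      (∀ a ∈ A, a⁻¹ ∈ A) → Subgroup.closure A = ⊤ → N₀ ≤ Nat.card G →
      ∃ l : List G, ClosedSeq A l ∧ 3 ≤ l.length ∧
        (Nat.card G : ℝ) ^ (1 - ε) ≤ l.length) := by
  obtain ⟨K, hK, hall⟩ := Pool.Agent.J4H54.LC.all_uni.{u}
  have h1 : ∀ (G : Type u) [Group G] [Finite G] (A : Set G),
      (∀ a ∈ A, a⁻¹ ∈ A) → Subgroup.closure A = ⊤ → 3 ≤ Nat.card G →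
      ∀ (R : Subgroup G) [R.Normal] [Group.IsSolvable R],
      ∃ l : List G, ClosedSeq A l ∧ 3 ≤ l.length ∧
        (Nat.card G : ℝ) ≤ K * (1 + Real.log (Nat.card R)) ^ 1465 *
          Real.exp (600 * √(Real.log (Nat.card (G ⧸ R)))) * l.length := by
    intro G _ _ A hinv hgen h3 R _ _
    obtain ⟨l, h1, h2, h3⟩ := hall G A hinv hgen h3 R
    exact ⟨l, ⟨h1.mem, h1.distinct, h1.closed⟩, h2, h3⟩
  refine ⟨⟨K, h1⟩, ?_⟩
  intro ε hε
  refine ⟨3 + ⌈Real.exp (max ((1200 / ε) ^ 2) (2 * Real.log K / ε))⌉₊, ?_⟩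
  intro G _ _ A hinv hgen hN
  obtain ⟨l, h2, h3, h4⟩ := h1 G A hinv hgen (by omega) ⊥
  refine ⟨l, h2, h3, ?_⟩
  have hcb : Nat.card (⊥ : Subgroup G) = 1 := Subgroup.card_bot
  have hcq : Nat.card (G ⧸ (⊥ : Subgroup G)) = Nat.card G := by
    have h5 := Subgroup.card_eq_card_quotient_mul_card_subgroup (⊥ : Subgroup G)
    rw [hcb, mul_one] at h5
    exact h5.symm
  rw [hcb, hcq, Nat.cast_one, Real.log_one, add_zero, one_pow, mul_one] at h4
  have hNr : Real.exp (max ((1200 / ε) ^ 2) (2 * Real.log K / ε)) ≤ Nat.card G := by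
    refine (Nat.le_ceil _).trans ?_
    exact_mod_cast (by omega :
      ⌈Real.exp (max ((1200 / ε) ^ 2) (2 * Real.log K / ε))⌉₊ ≤ Nat.card G)
  have hpos : (0 : ℝ) < Nat.card G := (Real.exp_pos _).trans_le hNr
  obtain ⟨L, hL⟩ : ∃ L : ℝ, L = Real.log (Nat.card G) := ⟨_, rfl⟩
  have hL1 : max ((1200 / ε) ^ 2) (2 * Real.log K / ε) ≤ L := by
    rw [hL, Real.le_log_iff_exp_le hpos]
    exact hNr
  have hLa : (1200 / ε) ^ 2 ≤ L := (le_max_left _ _).trans hL1
  have hLb : 2 * Real.log K / ε ≤ L := (le_max_right _ _).trans hL1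
  have hL0 : 0 ≤ L := (sq_nonneg _).trans hLa
  have hs : 1200 / ε ≤ √L := Real.le_sqrt_of_sq_le hLa
  have hs2 : 600 * √L ≤ ε * L / 2 := by
    have h5 : 1200 ≤ ε * √L := by
      rw [div_le_iff₀ hε] at hs
      linarith
    have h6 : 1200 * √L ≤ ε * √L * √L := mul_le_mul_of_nonneg_right h5 (Real.sqrt_nonneg _)
    rw [mul_assoc, Real.mul_self_sqrt hL0] at h6
    linarith
  have hk2 : Real.log K ≤ ε * L / 2 := by
    rw [div_le_iff₀ hε] at hLb
    linarith
  have hK0 : 0 < K := zero_lt_one.trans_le hK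
  have h7 : K * Real.exp (600 * √L) ≤ Real.exp (ε * L) := by
    calc K * Real.exp (600 * √L) = Real.exp (Real.log K + 600 * √L) := by
          rw [Real.exp_add, Real.exp_log hK0]
      _ ≤ Real.exp (ε * L) := Real.exp_le_exp.2 (by linarith)
  rw [← hL] at h4
  rw [Real.rpow_def_of_pos hpos, ← hL]
  have h8 : (Nat.card G : ℝ) = Real.exp L := by rw [hL, Real.exp_log hpos]
  rw [h8] at h4
  have h9 : Real.exp L ≤ Real.exp (ε * L) * l.length :=
    h4.trans (mul_le_mul_of_nonneg_right h7 (Nat.cast_nonneg _))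
  have h10 : L * (1 - ε) = L - ε * L := by ring
  rw [h10, Real.exp_sub, div_le_iff₀ (Real.exp_pos _), mul_comm]
  exact h9

end Pool.Agent.Results.MP_688fd0_co.AllFiniteGroups
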