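import Pool.Agent.J4H54.LC.Uni

/-!
# Long cycles in Cayley graphs of solvable groups

Let `A` be a symmetric generating set of a finite solvable group `G` with at least three elements.
Then there are `a_1, …, a_m ∈ A`, with product `1`, whose `m ≥ 3` initial products `a_1 ⋯ a_k` are
pairwise distinct (a cycle of length `m` of the Cayley graph), with `|G| ≤ 32 ^ d * m`, where `d` is
the derived length of `G`, and with `|G| ≤ 2 ^ 1480 * (1 + log |G|) ^ 1465 * m`.
-/

namespace Pool.Agent.Results.MP_688fd0_co.SolvableGroups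

universe u

/-- `ClosedSeq A l`: the entries `a_1, …, a_m` of the list `l` lie in `A`, the products
`a_1 ⋯ a_k` for `1 ≤ k ≤ m` are pairwise distinct, and `a_1 ⋯ a_m = 1`. -/
structure ClosedSeq {G : Type u} [Group G] (A : Set G) (l : List G) : Prop where
  mem : ∀ a ∈ l, a ∈ A
  distinct : ∀ j k : ℕ, 1 ≤ j → j < k → k ≤ l.length → (l.take j).prod ≠ (l.take k).prod
  closed : l.prod = 1

/-- **Long cycles in Cayley graphs of solvable groups.** -/
theorem result (G : Type u) [Group G] [Finite G] [Group.IsSolvable G] (A : Set G)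
    (hinv : ∀ a ∈ A, a⁻¹ ∈ A) (hgen : Subgroup.closure A = ⊤) (h3 : 3 ≤ Nat.card G) :
    ∃ l : List G, ClosedSeq A l ∧ 3 ≤ l.length ∧
      (∀ d : ℕ, derivedSeries G d = ⊥ → Nat.card G ≤ 32 ^ d * l.length) ∧
      (Nat.card G : ℝ) ≤ 2 ^ 1480 * (1 + Real.log (Nat.card G)) ^ 1465 * l.length := by
  obtain ⟨m, ⟨l, h1, h2, rfl⟩, h4, h5⟩ := Pool.Agent.J4H54.LC.both_bounds G
    (N := Nat.card G) (p := fun m => ∃ l : List G, ClosedSeq A l ∧ 3 ≤ l.length ∧ l.length = m)
    (fun d hd => by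
      obtain ⟨l, h1, h2, h4⟩ := Pool.Agent.J4H54.LC.solv' d G A hinv hgen hd h3
      exact ⟨l.length, ⟨l, ⟨h1.mem, h1.distinct, h1.closed⟩, h2, rfl⟩, h4⟩)
  exact ⟨l, h1, h2, h4, h5⟩

end Pool.Agent.Results.MP_688fd0_co.SolvableGroups
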