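import Pool.Agent.J4H54.LC.Uni

/-!
# Lifting long cycles of Cayley graphs through solvable normal subgroups

Let `A` be a symmetric generating set of a finite group `G`, and `R` a solvable normal subgroup.
A closed sequence of length `m` for `A` consists of `a_1, …, a_m ∈ A`, with product `1`, whose `m`
initial products `a_1 ⋯ a_k` are pairwise distinct (for `m ≥ 3`, a cycle of length `m` of the
Cayley graph). Every closed sequence of length `k ≥ 3` for the image of `A` in `G ⧸ R` gives a
closed sequence for `A` whose length `m` satisfies `k * |R| ≤ 32 ^ d * m`, where `d` is the derived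
length of `R`, and `k * |R| ≤ 2 ^ 1480 * (1 + log |R|) ^ 1465 * m`.
-/

namespace Pool.Agent.Results.MP_688fd0_co.SolvableKernel

universe u

/-- `ClosedSeq A l`: the entries `a_1, …, a_m` of the list `l` lie in `A`, the products
`a_1 ⋯ a_k` for `1 ≤ k ≤ m` are pairwise distinct, and `a_1 ⋯ a_m = 1`. -/
structure ClosedSeq {G : Type u} [Group G] (A : Set G) (l : List G) : Prop where
  mem : ∀ a ∈ l, a ∈ A
  distinct : ∀ j k : ℕ, 1 ≤ j → j < k → k ≤ l.length → (l.take j).prod ≠ (l.take k).prod
  closed : l.prod = 1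

/-- **Lifting long cycles through solvable normal subgroups.** -/
theorem result (G : Type u) [Group G] [Finite G] (A : Set G)
    (hinv : ∀ a ∈ A, a⁻¹ ∈ A) (hgen : Subgroup.closure A = ⊤)
    (R : Subgroup G) [R.Normal] [Group.IsSolvable R] (m : List (G ⧸ R))
    (hm : ClosedSeq ((QuotientGroup.mk : G → G ⧸ R) '' A) m) (h3 : 3 ≤ m.length) :
    ∃ l : List G, ClosedSeq A l ∧ 3 ≤ l.length ∧
      (∀ d : ℕ, derivedSeries R d = ⊥ → m.length * Nat.card R ≤ 32 ^ d * l.length) ∧
      (m.length * Nat.card R : ℝ) ≤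
        2 ^ 1480 * (1 + Real.log (Nat.card R)) ^ 1465 * l.length := by
  obtain ⟨n, ⟨l, h1, h2, rfl⟩, h4, h5⟩ := Pool.Agent.J4H54.LC.both_bounds R
    (N := m.length * Nat.card R)
    (p := fun n => ∃ l : List G, ClosedSeq A l ∧ 3 ≤ l.length ∧ l.length = n)
    (fun d hd => by
      obtain ⟨l, h1, h2, h4⟩ := Pool.Agent.J4H54.LC.lift' d G A hinv hgen R hd m
        ⟨hm.mem, hm.distinct, hm.closed⟩ h3
      exact ⟨l.length, ⟨l, ⟨h1.mem, h1.distinct, h1.closed⟩, h2, rfl⟩, h4⟩)
  refine ⟨l, h1, h2, h4, ?_⟩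
  push_cast at h5
  exact h5

end Pool.Agent.Results.MP_688fd0_co.SolvableKernel
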